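import Pool.Agent.Helper9.Ends.Defs
import Pool.Agent.Helper6.Ends.Inverse
import Pool.Agent.Helper28.Ends.Pompeiu

/-!
# EN-12: winding numbers of collars (for MP_f940ca_an)
-/

set_option autoImplicit false

open Set Filter Metric Topology MeasureTheory
open scoped ContDiff ComplexConjugate

namespace Pool.Agent.EN

namespace Wnd

/-- the radial cutoff: `1` for `r ≤ r1`, `0` for `r ≥ r2` -/
noncomputable def eta (r1 r2 : ℝ) (x : ℝ) : ℝ := Real.smoothTransition ((r2 - x) / (r2 - r1))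

variable {r1 r2 ρ : ℝ}

theorem eta_contDiff : ContDiff ℝ ∞ (eta r1 r2) :=
  Real.smoothTransition.contDiff.comp ((contDiff_const.sub contDiff_id).div_const _)

theorem eta_one (h : r1 < r2) {x : ℝ} (hx : x ≤ r1) : eta r1 r2 x = 1 :=
  Real.smoothTransition.one_of_one_le (by rw [le_div_iff₀ (by linarith)]; linarith)

theorem eta_zero (h : r1 < r2) {x : ℝ} (hx : r2 ≤ x) : eta r1 r2 x = 0 :=
  Real.smoothTransition.zero_of_nonpos (by
    rw [div_le_iff₀ (by linarith)]; linarith)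

theorem deriv_eta (h : r1 < r2) {x : ℝ} (hx : x < r1 ∨ r2 < x) : deriv (eta r1 r2) x = 0 := by
  rcases hx with hx | hx
  · have : eta r1 r2 =ᶠ[𝓝 x] fun _ => 1 := by
      filter_upwards [gt_mem_nhds hx] with y hy
      exact eta_one h hy.le
    rw [this.deriv_eq]; simp
  · have : eta r1 r2 =ᶠ[𝓝 x] fun _ => 0 := by
      filter_upwards [lt_mem_nhds hx] with y hy
      exact eta_zero h hy.le
    rw [this.deriv_eq]; simp

theorem deriv_eta_continuous : Continuous (deriv (eta r1 r2)) :=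
  eta_contDiff.continuous_deriv (by simp)

theorem dzbar_congr {F G : ℂ → ℂ} {z : ℂ} (h : F =ᶠ[𝓝 z] G) : dzbar F z = dzbar G z := by
  unfold dzbar
  rw [h.fderiv_eq]

theorem dzbar_const (c : ℂ) (z : ℂ) : dzbar (fun _ => c) z = 0 := by
  unfold dzbar
  simp

theorem hasFDerivAt_norm {z : ℂ} (hz : z ≠ 0) :
    HasFDerivAt (fun w : ℂ => ‖w‖) (‖z‖⁻¹ • innerSL ℝ z) z := by
  have h1 : HasFDerivAt (fun w : ℂ => ‖w‖ ^ 2) (2 • innerSL ℝ z) z :=
    (hasStrictFDerivAt_norm_sq z).hasFDerivAt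
  have h0 : ‖z‖ ^ 2 ≠ 0 := pow_ne_zero _ (norm_ne_zero_iff.2 hz)
  have h2 := h1.sqrt h0
  have h3 : (fun w : ℂ => ‖w‖) = fun w => √(‖w‖ ^ 2) := by
    funext w
    rw [Real.sqrt_sq (norm_nonneg _)]
  rw [h3]
  refine h2.congr_fderiv ?_
  rw [Real.sqrt_sq (norm_nonneg _)]
  have hn : ‖z‖ ≠ 0 := norm_ne_zero_iff.2 hz
  ext v
  simp
  field_simp

theorem radial_hasFDerivAt {z : ℂ} (hz : z ≠ 0) :
    HasFDerivAt (fun w : ℂ => (eta r1 r2 ‖w‖ : ℂ))
      (Complex.ofRealCLM.comp (deriv (eta r1 r2) ‖z‖ • (‖z‖⁻¹ • innerSL ℝ z))) z := by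
  have h1 : HasDerivAt (eta r1 r2) (deriv (eta r1 r2) ‖z‖) ‖z‖ :=
    (eta_contDiff.differentiable (by simp)).differentiableAt.hasDerivAt
  have h2 := HasDerivAt.comp_hasFDerivAt (h₂ := eta r1 r2) z h1 (hasFDerivAt_norm hz)
  exact Complex.ofRealCLM.hasFDerivAt.comp z h2

theorem dzbar_radial {z : ℂ} (hz : z ≠ 0) :
    dzbar (fun w : ℂ => (eta r1 r2 ‖w‖ : ℂ)) z = deriv (eta r1 r2) ‖z‖ / 2 * (z / ‖z‖) := by
  unfold dzbar
  rw [(radial_hasFDerivAt hz).fderiv]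
  have hn : (‖z‖ : ℂ) ≠ 0 := by exact_mod_cast norm_ne_zero_iff.2 hz
  simp only [ContinuousLinearMap.comp_apply, smul_apply,
    innerSL_apply_apply, Complex.ofRealCLM_apply, smul_eq_mul, Complex.inner]
  have e1 : ((1 : ℂ) * conj z).re = z.re := by simp
  have e2 : (Complex.I * conj z).re = z.im := by simp
  rw [e1, e2]
  push_cast
  field_simp
  rw [mul_comm Complex.I (z.im : ℂ), Complex.re_add_im z]

theorem dzbar_radial_zero (h : r1 < r2) {z : ℂ} (hz : ‖z‖ < r1 ∨ r2 < ‖z‖) :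
    dzbar (fun w : ℂ => (eta r1 r2 ‖w‖ : ℂ)) z = 0 := by
  rcases hz with hz | hz
  · have : (fun w : ℂ => (eta r1 r2 ‖w‖ : ℂ)) =ᶠ[𝓝 z] fun _ => 1 := by
      filter_upwards [continuous_norm.continuousAt.eventually_lt_const hz] with y hy
      rw [eta_one h hy.le]; simp
    rw [dzbar_congr this, dzbar_const]
  · have : (fun w : ℂ => (eta r1 r2 ‖w‖ : ℂ)) =ᶠ[𝓝 z] fun _ => 0 := by
      filter_upwards [continuous_norm.continuousAt.eventually_const_lt hz] with y hy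
      rw [eta_zero h hy.le]; simp
    rw [dzbar_congr this, dzbar_const]

/-- integrals over circles in the annulus agree -/
theorem circle_eq {f : ℂ → ℂ} (hρ : 1 < ρ) (hf : DifferentiableOn ℂ f (ann2 ρ)) {r : ℝ}
    (h1 : 1 ≤ r) (h2 : r < ρ) : (∮ z in C(0, r), f z) = ∮ z in C(0, 1), f z := by
  have hsub : closedBall (0 : ℂ) r \ ball 0 1 ⊆ ann2 ρ := by
    intro z hz
    simp only [Set.mem_sdiff, mem_closedBall, dist_zero_right, mem_ball, not_lt] at hz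
    exact ⟨lt_of_lt_of_le (inv_lt_one_of_one_lt₀ hρ) hz.2, hz.1.trans_lt h2⟩
  have hopen : IsOpen (ann2 ρ) := by
    have : ann2 ρ = {z | ρ⁻¹ < ‖z‖} ∩ {z | ‖z‖ < ρ} := rfl
    rw [this]
    exact (isOpen_lt continuous_const continuous_norm).inter
      (isOpen_lt continuous_norm continuous_const)
  refine Complex.circleIntegral_eq_of_differentiable_on_annulus_off_countable one_pos h1
    countable_empty (hf.continuousOn.mono hsub) fun z hz => ?_
  refine hf.differentiableAt (hopen.mem_nhds (hsub ⟨ball_subset_closedBall hz.1.1, fun h => ?_⟩))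
  exact hz.1.2 (ball_subset_closedBall h)

theorem circle_polar (f : ℂ → ℂ) (r : ℝ) :
    ∫ θ in Ioo (-Real.pi) Real.pi, (r : ℂ) * (Complex.exp (θ * Complex.I) *
      f (r * Complex.exp (θ * Complex.I))) = -Complex.I * ∮ z in C(0, r), f z := by
  have hper : Function.Periodic (fun θ : ℝ => (r : ℂ) * (Complex.exp (θ * Complex.I) *
      f (r * Complex.exp (θ * Complex.I)))) (2 * Real.pi) := by
    intro θ
    have : Complex.exp (((θ + 2 * Real.pi : ℝ) : ℂ) * Complex.I) =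
        Complex.exp (θ * Complex.I) := by
      push_cast
      rw [add_mul]
      exact Complex.exp_periodic _
    simp only [this]
  have h1 := hper.intervalIntegral_add_eq (-Real.pi) 0
  have e1 : -Real.pi + 2 * Real.pi = Real.pi := by ring
  rw [e1, zero_add] at h1
  rw [← integral_Ioc_eq_integral_Ioo, ← intervalIntegral.integral_of_le
    (by linarith [Real.pi_pos]), h1, circleIntegral, ← intervalIntegral.integral_const_mul]
  congr 1
  funext θ
  simp only [deriv_circleMap, circleMap, zero_add, smul_eq_mul]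
  ring_nf
  rw [Complex.I_sq]
  ring

/-- the radial integral -/
theorem annulus_integral (hρ : 1 < ρ) (h1 : 1 < r1) (h12 : r1 < r2) (h2 : r2 < ρ) {f : ℂ → ℂ}
    (hf : DifferentiableOn ℂ f (ann2 ρ)) :
    ∫ z in ann ρ, dzbar (fun w : ℂ => (eta r1 r2 ‖w‖ : ℂ)) z * f z =
      Complex.I / 2 * ∮ z in C(0, 1), f z := by
  have hz0 : ∀ z : ℂ, z ∉ ann ρ → dzbar (fun w : ℂ => (eta r1 r2 ‖w‖ : ℂ)) z * f z = 0 := by
    intro z hz
    have : ‖z‖ < r1 ∨ r2 < ‖z‖ := by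
      by_contra hcon
      push Not at hcon
      exact hz ⟨h1.trans_le hcon.1, hcon.2.trans_lt h2⟩
    rw [dzbar_radial_zero h12 this, zero_mul]
  rw [setIntegral_eq_integral_of_forall_compl_eq_zero hz0,
    ← Complex.integral_comp_polarCoord_symm]
  set H : ℝ × ℝ → ℂ := fun p => ((deriv (eta r1 r2) p.1 : ℝ) : ℂ) / 2 *
    ((p.1 : ℂ) * (Complex.exp (p.2 * Complex.I) * f (p.1 * Complex.exp (p.2 * Complex.I)))) with hH
  have hpt : ∀ p ∈ polarCoord.target, p.1 • (dzbar (fun w : ℂ => (eta r1 r2 ‖w‖ : ℂ))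
      (Complex.polarCoord.symm p) * f (Complex.polarCoord.symm p)) = H p := by
    intro p hp
    have hp1 : 0 < p.1 := hp.1
    have hs : Complex.polarCoord.symm p = p.1 * Complex.exp (p.2 * Complex.I) := by
      rw [Complex.polarCoord_symm_apply, Complex.exp_mul_I]
      push_cast
      ring
    have hn : ‖(p.1 : ℂ) * Complex.exp (p.2 * Complex.I)‖ = p.1 := by
      rw [norm_mul, Complex.norm_exp_ofReal_mul_I, mul_one, Complex.norm_real, Real.norm_eq_abs,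
        abs_of_pos hp1]
    have hne : (p.1 : ℂ) * Complex.exp (p.2 * Complex.I) ≠ 0 := by
      rw [← norm_ne_zero_iff, hn]; exact hp1.ne'
    rw [hs, dzbar_radial hne, hn, hH]
    have hpc : (p.1 : ℂ) ≠ 0 := by exact_mod_cast hp1.ne'
    simp only [Complex.real_smul]
    field_simp
  have hmt : MeasurableSet (polarCoord.target : Set (ℝ × ℝ)) :=
    polarCoord.open_target.measurableSet
  rw [setIntegral_congr_fun hmt hpt]
  have hHz : ∀ p : ℝ × ℝ, p.1 ∉ Icc r1 r2 → H p = 0 := by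
    intro p hp
    have : p.1 < r1 ∨ r2 < p.1 := by
      by_contra hcon
      push Not at hcon
      exact hp hcon
    simp only [hH, deriv_eta h12 this]
    simp
  have hcont : ContinuousOn H (Icc r1 r2 ×ˢ Icc (-Real.pi) Real.pi) := by
    have hmem : ∀ p ∈ Icc r1 r2 ×ˢ Icc (-Real.pi) Real.pi,
        (p.1 : ℂ) * Complex.exp (p.2 * Complex.I) ∈ ann2 ρ := by
      intro p hp
      have hp1 : 0 < p.1 := by linarith [hp.1.1]
      have hn : ‖(p.1 : ℂ) * Complex.exp (p.2 * Complex.I)‖ = p.1 := by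
        rw [norm_mul, Complex.norm_exp_ofReal_mul_I, mul_one, Complex.norm_real, Real.norm_eq_abs,
          abs_of_pos hp1]
      refine ⟨?_, ?_⟩
      · rw [hn]
        have := inv_lt_one_of_one_lt₀ hρ
        linarith [hp.1.1]
      · rw [hn]
        linarith [hp.1.2]
    have hc1 : Continuous fun p : ℝ × ℝ => (p.1 : ℂ) * Complex.exp (p.2 * Complex.I) := by
      fun_prop
    have hc2 : ContinuousOn (fun p : ℝ × ℝ => f (p.1 * Complex.exp (p.2 * Complex.I)))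
        (Icc r1 r2 ×ˢ Icc (-Real.pi) Real.pi) :=
      hf.continuousOn.comp hc1.continuousOn hmem
    have hc3 : Continuous fun p : ℝ × ℝ => ((deriv (eta r1 r2) p.1 : ℝ) : ℂ) / 2 :=
      (Complex.continuous_ofReal.comp (deriv_eta_continuous.comp continuous_fst)).div_const _
    have hc4 : Continuous fun p : ℝ × ℝ => (p.1 : ℂ) := by fun_prop
    have hc5 : Continuous fun p : ℝ × ℝ => Complex.exp (p.2 * Complex.I) := by fun_prop
    exact hc3.continuousOn.mul (hc4.continuousOn.mul (hc5.continuousOn.mul hc2))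
  have hint : IntegrableOn H (Ioi (0 : ℝ) ×ˢ Ioo (-Real.pi) Real.pi) := by
    have hcpt : IsCompact (Icc r1 r2 ×ˢ Icc (-Real.pi) Real.pi) := isCompact_Icc.prod isCompact_Icc
    refine (hcont.integrableOn_compact hcpt).of_forall_sdiff_eq_zero
      (measurableSet_Ioi.prod measurableSet_Ioo) fun p hp => ?_
    refine hHz p fun hp1 => hp.2 ⟨hp1, ?_⟩
    exact Ioo_subset_Icc_self hp.1.2
  have htar : (polarCoord.target : Set (ℝ × ℝ)) = Ioi (0 : ℝ) ×ˢ Ioo (-Real.pi) Real.pi := rfl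
  rw [htar, Measure.volume_eq_prod, setIntegral_prod H hint]
  have hinner : ∀ r : ℝ, ∫ θ in Ioo (-Real.pi) Real.pi, H (r, θ) =
      ((deriv (eta r1 r2) r : ℝ) : ℂ) * (-Complex.I / 2 * ∮ z in C(0, 1), f z) := by
    intro r
    have e1 : ∫ θ in Ioo (-Real.pi) Real.pi, H (r, θ) =
        ((deriv (eta r1 r2) r : ℝ) : ℂ) / 2 * (-Complex.I * ∮ z in C(0, r), f z) := by
      rw [← circle_polar, ← integral_const_mul]
    rw [e1]
    by_cases hr : r < r1 ∨ r2 < r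
    · rw [deriv_eta h12 hr]; simp
    · push Not at hr
      rw [circle_eq hρ hf (h1.le.trans hr.1) (hr.2.trans_lt h2)]
      ring
  simp only [hinner]
  rw [integral_mul_const]
  have hd : ∫ r in Ioi (0 : ℝ), ((deriv (eta r1 r2) r : ℝ) : ℂ) = -1 := by
    have e1 : ∫ r in Ioi (0 : ℝ), ((deriv (eta r1 r2) r : ℝ) : ℂ) =
        ∫ r in Ioc (0 : ℝ) ρ, ((deriv (eta r1 r2) r : ℝ) : ℂ) := by
      refine setIntegral_eq_of_subset_of_forall_sdiff_eq_zero measurableSet_Ioi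
        Ioc_subset_Ioi_self fun r hr => ?_
      have : ρ < r := by
        by_contra hcon
        push Not at hcon
        exact hr.2 ⟨hr.1, hcon⟩
      rw [deriv_eta h12 (Or.inr (h2.trans this))]
      simp
    rw [e1, ← intervalIntegral.integral_of_le (by linarith), intervalIntegral.integral_ofReal,
      intervalIntegral.integral_deriv_eq_sub]
    · rw [eta_zero h12 h2.le, eta_one h12 (by linarith)]
      simp
    · intro x _
      exact (eta_contDiff.differentiable (by simp)).differentiableAt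
    · exact deriv_eta_continuous.intervalIntegrable _ _
  rw [hd]
  ring

/-- the cut off function of the collar -/
noncomputable def chi (K : Set ℂ) (κ : ℂ → ℂ) (g : ℂ → ℂ) (ρ r1 r2 : ℝ) : ℂ → ℂ := fun w =>
  open Classical in
  if w ∈ K then 1 else if w ∈ κ '' ann2 ρ then (eta r1 r2 ‖g w‖ : ℂ) else 0

section collar

variable {K : Set ℂ} {κ g : ℂ → ℂ}

theorem isOpen_ann2 : IsOpen (ann2 ρ) := by
  have : ann2 ρ = {z | ρ⁻¹ < ‖z‖} ∩ {z | ‖z‖ < ρ} := rfl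
  rw [this]
  exact (isOpen_lt continuous_const continuous_norm).inter
    (isOpen_lt continuous_norm continuous_const)

theorem isOpen_ann : IsOpen (ann ρ) := by
  have : ann ρ = {z | 1 < ‖z‖} ∩ {z | ‖z‖ < ρ} := rfl
  rw [this]
  exact (isOpen_lt continuous_const continuous_norm).inter
    (isOpen_lt continuous_norm continuous_const)

theorem ann_subset (hρ : 1 < ρ) : ann ρ ⊆ ann2 ρ := fun _ hz =>
  ⟨(inv_lt_one_of_one_lt₀ hρ).trans hz.1, hz.2⟩

theorem chi_kap (h1 : 1 < r1) (h12 : r1 < r2)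
    (hmem : ∀ z ∈ ann2 ρ, (κ z ∈ K ↔ ‖z‖ ≤ 1)) (hg : ∀ z ∈ ann2 ρ, g (κ z) = z) {z : ℂ}
    (hz : z ∈ ann2 ρ) : chi K κ g ρ r1 r2 (κ z) = (eta r1 r2 ‖z‖ : ℂ) := by
  unfold chi
  by_cases h : κ z ∈ K
  · rw [if_pos h, eta_one h12 (((hmem z hz).1 h).trans h1.le)]
    simp
  · rw [if_neg h, if_pos ⟨z, hz, rfl⟩, hg z hz]

theorem chi_near_K (hρ : 1 < ρ) (h1 : 1 < r1) (h12 : r1 < r2) (h2 : r2 < ρ)
    (hmem : ∀ z ∈ ann2 ρ, (κ z ∈ K ↔ ‖z‖ ≤ 1)) (hg : ∀ z ∈ ann2 ρ, g (κ z) = z)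
    (hop : ∀ r, 1 < r → r ≤ ρ → IsOpen (K ∪ κ '' ann r)) {w : ℂ} (hw : w ∈ K) :
    chi K κ g ρ r1 r2 =ᶠ[𝓝 w] fun _ => 1 := by
  filter_upwards [(hop r1 h1 (h12.trans h2).le).mem_nhds (Or.inl hw)] with y hy
  rcases hy with hy | ⟨z, hz, rfl⟩
  · simp [chi, hy]
  · have hz2 : z ∈ ann2 ρ := ann_subset hρ ⟨hz.1, hz.2.trans (h12.trans h2)⟩
    rw [chi_kap h1 h12 hmem hg hz2, eta_one h12 hz.2.le]
    simp

theorem closed_C2 (hK : IsClosed K) (hρ : 1 < ρ) (h2 : r2 < ρ)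
    (hκ : DifferentiableOn ℂ κ (ann2 ρ)) :
    IsCompact (κ '' (closedBall 0 r2 \ ball 0 1)) ∧
      IsClosed (K ∪ κ '' (closedBall 0 r2 \ ball 0 1)) := by
  have hsub : closedBall (0 : ℂ) r2 \ ball 0 1 ⊆ ann2 ρ := by
    intro z hz
    simp only [Set.mem_sdiff, mem_closedBall, dist_zero_right, mem_ball, not_lt] at hz
    exact ⟨lt_of_lt_of_le (inv_lt_one_of_one_lt₀ hρ) hz.2, hz.1.trans_lt h2⟩
  have h := ((isCompact_closedBall (0 : ℂ) r2).diff isOpen_ball).image_of_continuousOn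
    (hκ.continuousOn.mono hsub)
  exact ⟨h, hK.union h.isClosed⟩

theorem chi_far (hK : IsClosed K) (hρ : 1 < ρ) (h1 : 1 < r1) (h12 : r1 < r2) (h2 : r2 < ρ)
    (hκ : DifferentiableOn ℂ κ (ann2 ρ))
    (hmem : ∀ z ∈ ann2 ρ, (κ z ∈ K ↔ ‖z‖ ≤ 1)) (hg : ∀ z ∈ ann2 ρ, g (κ z) = z) {w : ℂ}
    (hw : w ∉ K ∪ κ '' (closedBall 0 r2 \ ball 0 1)) :
    chi K κ g ρ r1 r2 =ᶠ[𝓝 w] fun _ => 0 := by
  filter_upwards [(closed_C2 (r2 := r2) hK hρ h2 hκ).2.isOpen_compl.mem_nhds hw] with y hy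
  rw [mem_compl_iff, mem_union, not_or] at hy
  by_cases h : y ∈ κ '' ann2 ρ
  · obtain ⟨z, hz, rfl⟩ := h
    have hz1 : 1 < ‖z‖ := by
      by_contra hcon
      push Not at hcon
      exact hy.1 ((hmem z hz).2 hcon)
    have hz2 : r2 < ‖z‖ := by
      by_contra hcon
      push Not at hcon
      refine hy.2 ⟨z, ⟨by simpa using hcon, ?_⟩, rfl⟩
      simpa using hz1.le
    rw [chi_kap h1 h12 hmem hg hz, eta_zero h12 hz2.le]
    simp
  · simp [chi, hy.1, h]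

theorem chi_contDiff (hK : IsClosed K) (hρ : 1 < ρ) (h1 : 1 < r1) (h12 : r1 < r2) (h2 : r2 < ρ)
    (hκ : DifferentiableOn ℂ κ (ann2 ρ)) (hio : IsOpen (κ '' ann2 ρ))
    (hgd : DifferentiableOn ℂ g (κ '' ann2 ρ))
    (hmem : ∀ z ∈ ann2 ρ, (κ z ∈ K ↔ ‖z‖ ≤ 1)) (hg : ∀ z ∈ ann2 ρ, g (κ z) = z)
    (hop : ∀ r, 1 < r → r ≤ ρ → IsOpen (K ∪ κ '' ann r)) :
    ContDiff ℝ 1 (chi K κ g ρ r1 r2) := by
  rw [contDiff_iff_contDiffAt]
  intro w
  by_cases hw : w ∈ K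
  · exact contDiffAt_const.congr_of_eventuallyEq (chi_near_K hρ h1 h12 h2 hmem hg hop hw)
  by_cases hw2 : w ∈ κ '' ann2 ρ
  · have he : chi K κ g ρ r1 r2 =ᶠ[𝓝 w] fun y => (eta r1 r2 ‖g y‖ : ℂ) := by
      filter_upwards [hio.mem_nhds hw2] with y hy
      obtain ⟨z, hz, rfl⟩ := hy
      rw [chi_kap h1 h12 hmem hg hz, hg z hz]
    refine ContDiffAt.congr_of_eventuallyEq ?_ he
    have hgw : g w ≠ 0 := by
      obtain ⟨z, hz, rfl⟩ := hw2
      rw [hg z hz]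
      rintro rfl
      have := hz.1
      rw [norm_zero] at this
      exact absurd this (not_lt.2 (inv_nonneg.2 (by linarith)))
    have hga : ContDiffAt ℝ 1 g w :=
      (((hgd.analyticOnNhd hio) w hw2).contDiffAt (n := 1)).restrict_scalars ℝ
    have h3 : ContDiffAt ℝ 1 (fun y => ‖g y‖) w := hga.norm ℝ hgw
    exact (Complex.ofRealCLM.contDiff.comp (eta_contDiff.of_le (by norm_cast))).contDiffAt.comp w h3
  · refine contDiffAt_const.congr_of_eventuallyEq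
      (chi_far (r2 := r2) hK hρ h1 h12 h2 hκ hmem hg (w := w) ?_)
    rw [mem_union, not_or]
    refine ⟨hw, ?_⟩
    rintro ⟨z, hz, rfl⟩
    simp only [Set.mem_sdiff, mem_closedBall, dist_zero_right, mem_ball, not_lt] at hz
    exact hw2 ⟨z, ⟨lt_of_lt_of_le (inv_lt_one_of_one_lt₀ hρ) hz.2, hz.1.trans_lt h2⟩, rfl⟩

theorem dzbar_comp {χ : ℂ → ℂ} {z : ℂ} (hχ : DifferentiableAt ℝ χ (κ z))
    (hκ : DifferentiableAt ℂ κ z) :
    dzbar (fun y => χ (κ y)) z = conj (deriv κ z) * dzbar χ (κ z) := by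
  have h1 : HasFDerivAt κ (((ContinuousLinearMap.toSpanSingleton ℂ (deriv κ z))).restrictScalars ℝ)
      z := by
    have := hκ.hasDerivAt.hasFDerivAt.restrictScalars ℝ
    exact this
  have h2 : HasFDerivAt (fun y => χ (κ y)) _ z := hχ.hasFDerivAt.comp z h1
  unfold dzbar
  rw [h2.fderiv]
  simp only [ContinuousLinearMap.comp_apply, ContinuousLinearMap.coe_restrictScalars',
    ContinuousLinearMap.toSpanSingleton_apply, smul_eq_mul, one_mul]
  set L := fderiv ℝ χ (κ z) with hL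
  set c := deriv κ z with hc
  have hLc : ∀ u : ℂ, L u = u.re * L 1 + u.im * L Complex.I := by
    intro u
    have : u = u.re • (1 : ℂ) + u.im • Complex.I := by
      simp
    conv_lhs => rw [this]
    rw [map_add, map_smul, map_smul, Complex.real_smul, Complex.real_smul]
  rw [hLc c, hLc (Complex.I * c)]
  have e1 : (Complex.I * c).re = -c.im := by simp
  have e2 : (Complex.I * c).im = c.re := by simp
  have e3 : conj c = c.re - c.im * Complex.I := by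
    apply Complex.ext <;> simp
  rw [e1, e2, e3]
  push_cast
  linear_combination ((c.im : ℂ) * L Complex.I / 2 : ℂ) * Complex.I_sq

theorem det_mul (c : ℂ) :
    (((ContinuousLinearMap.toSpanSingleton ℂ c)).restrictScalars ℝ).det = ‖c‖ ^ 2 := by
  have h := LinearMap.det_restrictScalars (R := ℝ) (S := ℂ)
    (f := (ContinuousLinearMap.toSpanSingleton ℂ c : ℂ →L[ℂ] ℂ).toLinearMap)
  rw [ContinuousLinearMap.det]
  have e : ((((ContinuousLinearMap.toSpanSingleton ℂ c)).restrictScalars ℝ : ℂ →L[ℝ] ℂ) :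
      ℂ →ₗ[ℝ] ℂ) = LinearMap.restrictScalars ℝ
        (ContinuousLinearMap.toSpanSingleton ℂ c : ℂ →L[ℂ] ℂ).toLinearMap := rfl
  rw [e, h, Algebra.norm_complex_apply, Complex.normSq_eq_norm_sq]
  congr 2
  simp

theorem dzbar_chi_zero (hK : IsClosed K) (hρ : 1 < ρ) (h1 : 1 < r1) (h12 : r1 < r2) (h2 : r2 < ρ)
    (hκ : DifferentiableOn ℂ κ (ann2 ρ))
    (hmem : ∀ z ∈ ann2 ρ, (κ z ∈ K ↔ ‖z‖ ≤ 1)) (hg : ∀ z ∈ ann2 ρ, g (κ z) = z)
    (hop : ∀ r, 1 < r → r ≤ ρ → IsOpen (K ∪ κ '' ann r)) {w : ℂ} (hw : w ∉ κ '' ann ρ) :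
    dzbar (chi K κ g ρ r1 r2) w = 0 := by
  by_cases hwK : w ∈ K
  · rw [dzbar_congr (chi_near_K hρ h1 h12 h2 hmem hg hop hwK), dzbar_const]
  · rw [dzbar_congr (chi_far (r2 := r2) hK hρ h1 h12 h2 hκ hmem hg (w := w) ?_), dzbar_const]
    rw [mem_union, not_or]
    refine ⟨hwK, ?_⟩
    rintro ⟨z, hz, rfl⟩
    simp only [Set.mem_sdiff, mem_closedBall, dist_zero_right, mem_ball, not_lt] at hz
    have hz2 : z ∈ ann2 ρ :=
      ⟨lt_of_lt_of_le (inv_lt_one_of_one_lt₀ hρ) hz.2, hz.1.trans_lt h2⟩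
    have hz1 : 1 < ‖z‖ := by
      by_contra hcon
      push Not at hcon
      exact hwK ((hmem z hz2).2 hcon)
    exact hw ⟨z, ⟨hz1, hz2.2⟩, rfl⟩

/-- the change of variables -/
theorem integral_chi (hK : IsClosed K) (hρ : 1 < ρ) (h1 : 1 < r1) (h12 : r1 < r2) (h2 : r2 < ρ)
    (hκ : DifferentiableOn ℂ κ (ann2 ρ)) (hi : InjOn κ (ann2 ρ)) (hio : IsOpen (κ '' ann2 ρ))
    (hgd : DifferentiableOn ℂ g (κ '' ann2 ρ))
    (hmem : ∀ z ∈ ann2 ρ, (κ z ∈ K ↔ ‖z‖ ≤ 1)) (hg : ∀ z ∈ ann2 ρ, g (κ z) = z)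
    (hop : ∀ r, 1 < r → r ≤ ρ → IsOpen (K ∪ κ '' ann r)) {b : ℂ} (hb : b ∉ κ '' ann2 ρ) :
    ∫ w, dzbar (chi K κ g ρ r1 r2) w / (b - w) =
      -(Complex.I / 2) * ∮ z in C(0, 1), deriv κ z / (κ z - b) := by
  have h0 : ∀ w, w ∉ κ '' ann ρ → dzbar (chi K κ g ρ r1 r2) w / (b - w) = 0 := by
    intro w hw
    rw [dzbar_chi_zero hK hρ h1 h12 h2 hκ hmem hg hop hw, zero_div]
  rw [← setIntegral_eq_integral_of_forall_compl_eq_zero h0]
  have hder : ∀ z ∈ ann ρ, HasFDerivWithinAt κ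
      (((ContinuousLinearMap.toSpanSingleton ℂ (deriv κ z))).restrictScalars ℝ) (ann ρ) z := by
    intro z hz
    have h3 := hκ.differentiableAt (isOpen_ann2.mem_nhds (ann_subset hρ hz))
    have h4 := h3.hasDerivAt.hasFDerivAt.restrictScalars ℝ
    exact HasFDerivAt.hasFDerivWithinAt h4
  rw [integral_image_eq_integral_abs_det_fderiv_smul volume isOpen_ann.measurableSet hder
    (hi.mono (ann_subset hρ))]
  have hf : DifferentiableOn ℂ (fun z => deriv κ z / (b - κ z)) (ann2 ρ) := by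
    refine (hκ.deriv isOpen_ann2).div (hκ.const_sub b) fun z hz h => ?_
    exact hb ⟨z, hz, (sub_eq_zero.1 h).symm⟩
  have hpt : ∀ z ∈ ann ρ, |(((ContinuousLinearMap.toSpanSingleton ℂ
      (deriv κ z))).restrictScalars ℝ).det| • (dzbar (chi K κ g ρ r1 r2) (κ z) / (b - κ z)) =
      dzbar (fun w : ℂ => (eta r1 r2 ‖w‖ : ℂ)) z * (deriv κ z / (b - κ z)) := by
    intro z hz
    have hz2 := ann_subset hρ hz
    have hdet : (((ContinuousLinearMap.toSpanSingleton ℂ (deriv κ z))).restrictScalars ℝ).det =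
        ‖deriv κ z‖ ^ 2 := det_mul _
    have he : (fun w : ℂ => (eta r1 r2 ‖w‖ : ℂ)) =ᶠ[𝓝 z] fun y => chi K κ g ρ r1 r2 (κ y) := by
      filter_upwards [isOpen_ann2.mem_nhds hz2] with y hy
      rw [chi_kap h1 h12 hmem hg hy]
    have hχ : DifferentiableAt ℝ (chi K κ g ρ r1 r2) (κ z) :=
      ((chi_contDiff hK hρ h1 h12 h2 hκ hio hgd hmem hg hop).differentiable (by simp)).differentiableAt
    rw [dzbar_congr he, dzbar_comp hχ (hκ.differentiableAt (isOpen_ann2.mem_nhds hz2)), hdet,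
      abs_of_nonneg (by positivity), Complex.real_smul]
    push_cast
    rw [← Complex.conj_mul']
    ring
  rw [setIntegral_congr_fun isOpen_ann.measurableSet hpt, annulus_integral hρ h1 h12 h2 hf]
  have : (∮ z in C(0, 1), deriv κ z / (b - κ z)) = -∮ z in C(0, 1), deriv κ z / (κ z - b) := by
    have e1 := circleIntegral.integral_const_mul (-1 : ℂ) (fun z => deriv κ z / (κ z - b)) 0 1
    rw [neg_one_mul] at e1
    rw [← e1]
    congr 1
    funext z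
    rw [← neg_sub (κ z) b, div_neg, neg_one_mul]
  rw [this]
  ring

end collar

end Wnd

open Wnd in
theorem wind_bdd_of (hP : ∀ φ : ℂ → ℂ, ContDiff ℝ 1 φ → HasCompactSupport φ → ∀ z,
    ∫ w, dzbar φ w / (z - w) = Real.pi * φ z) {K : Set ℂ} (hK : IsCompact K) {ρ : ℝ} (hρ : 1 < ρ) {κ : ℂ → ℂ}
    (hκ : DifferentiableOn ℂ κ (ann2 ρ)) (hi : InjOn κ (ann2 ρ))
    (hmem : ∀ z ∈ ann2 ρ, (κ z ∈ K ↔ ‖z‖ ≤ 1))
    (hop : ∀ r, 1 < r → r ≤ ρ → IsOpen (K ∪ κ '' ann r)) {b : ℂ} (hb : b ∉ κ '' ann2 ρ) :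
    (b ∈ K → (∮ z in C(0, 1), deriv κ z / (κ z - b)) = 2 * Real.pi * Complex.I) ∧
      (b ∉ K → (∮ z in C(0, 1), deriv κ z / (κ z - b)) = 0) := by
  obtain ⟨hio, -, g, hgd, hg⟩ := exists_inverse isOpen_ann2 hκ hi
  obtain ⟨r1, h1, h1'⟩ := exists_between hρ
  obtain ⟨r2, h12, h2⟩ := exists_between h1'
  have hcd := chi_contDiff hK.isClosed hρ h1 h12 h2 hκ hio hgd hmem hg hop
  have hcs : HasCompactSupport (chi K κ g ρ r1 r2) := by
    refine HasCompactSupport.intro (hK.union (closed_C2 (r2 := r2) hK.isClosed hρ h2 hκ).1)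
      fun w hw => ?_
    exact (chi_far (r2 := r2) hK.isClosed hρ h1 h12 h2 hκ hmem hg hw).self_of_nhds
  have hp := hP _ hcd hcs b
  rw [integral_chi hK.isClosed hρ h1 h12 h2 hκ hi hio hgd hmem hg hop hb] at hp
  constructor
  · intro hbK
    have hc1 : chi K κ g ρ r1 r2 b = 1 := by simp [chi, hbK]
    rw [hc1] at hp
    linear_combination (2 * Complex.I) * hp + (∮ z in C(0, 1), deriv κ z / (κ z - b)) *
      Complex.I_sq
  · intro hbK
    have hc1 : chi K κ g ρ r1 r2 b = 0 := by simp [chi, hbK, hb]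
    rw [hc1] at hp
    linear_combination (2 * Complex.I) * hp + (∮ z in C(0, 1), deriv κ z / (κ z - b)) *
      Complex.I_sq

open Wnd in
theorem wind_unbdd_of (hP : ∀ φ : ℂ → ℂ, ContDiff ℝ 1 φ → HasCompactSupport φ → ∀ z,
    ∫ w, dzbar φ w / (z - w) = Real.pi * φ z) {K : Set ℂ} (hK : IsClosed K) (hKM : ∃ M : ℝ, ∀ z : ℂ, M < ‖z‖ → z ∈ K)
    {ρ : ℝ} (hρ : 1 < ρ) {κ : ℂ → ℂ}
    (hκ : DifferentiableOn ℂ κ (ann2 ρ)) (hi : InjOn κ (ann2 ρ))
    (hmem : ∀ z ∈ ann2 ρ, (κ z ∈ K ↔ ‖z‖ ≤ 1))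
    (hop : ∀ r, 1 < r → r ≤ ρ → IsOpen (K ∪ κ '' ann r)) {b : ℂ} (hb : b ∉ κ '' ann2 ρ)
    (hbK : b ∉ K) :
    (∮ z in C(0, 1), deriv κ z / (κ z - b)) = -(2 * Real.pi * Complex.I) := by
  obtain ⟨hio, -, g, hgd, hg⟩ := exists_inverse isOpen_ann2 hκ hi
  obtain ⟨r1, h1, h1'⟩ := exists_between hρ
  obtain ⟨r2, h12, h2⟩ := exists_between h1'
  obtain ⟨M, hM⟩ := hKM
  have hcd := chi_contDiff hK hρ h1 h12 h2 hκ hio hgd hmem hg hop
  have hcs : HasCompactSupport (fun w => 1 - chi K κ g ρ r1 r2 w) := by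
    refine HasCompactSupport.intro (isCompact_closedBall (0 : ℂ) M) fun w hw => ?_
    rw [mem_closedBall, dist_zero_right, not_le] at hw
    simp [chi, hM w hw]
  have hp := hP _ (contDiff_const.sub hcd) hcs b
  have hdz : ∀ w, dzbar (fun w => 1 - chi K κ g ρ r1 r2 w) w / (b - w) =
      -(dzbar (chi K κ g ρ r1 r2) w / (b - w)) := by
    intro w
    have : dzbar (fun w => 1 - chi K κ g ρ r1 r2 w) w = -dzbar (chi K κ g ρ r1 r2) w := by
      unfold dzbar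
      rw [fderiv_const_sub]
      simp
      ring
    rw [this, neg_div]
  simp only [hdz] at hp
  rw [integral_neg, integral_chi hK hρ h1 h12 h2 hκ hi hio hgd hmem hg hop hb] at hp
  have hc1 : chi K κ g ρ r1 r2 b = 0 := by simp [chi, hbK, hb]
  rw [hc1] at hp
  linear_combination (-2 * Complex.I) * hp + (∮ z in C(0, 1), deriv κ z / (κ z - b)) *
      Complex.I_sq

theorem wind_bdd {K : Set ℂ} (hK : IsCompact K) {ρ : ℝ} (hρ : 1 < ρ) {κ : ℂ → ℂ}
    (hκ : DifferentiableOn ℂ κ (ann2 ρ)) (hi : InjOn κ (ann2 ρ))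
    (hmem : ∀ z ∈ ann2 ρ, (κ z ∈ K ↔ ‖z‖ ≤ 1))
    (hop : ∀ r, 1 < r → r ≤ ρ → IsOpen (K ∪ κ '' ann r)) {b : ℂ} (hb : b ∉ κ '' ann2 ρ) :
    (b ∈ K → (∮ z in C(0, 1), deriv κ z / (κ z - b)) = 2 * Real.pi * Complex.I) ∧
      (b ∉ K → (∮ z in C(0, 1), deriv κ z / (κ z - b)) = 0) :=
  wind_bdd_of (fun _ h1 h2 z => pompeiu h1 h2 z) hK hρ hκ hi hmem hop hb

theorem wind_unbdd {K : Set ℂ} (hK : IsClosed K) (hKM : ∃ M : ℝ, ∀ z : ℂ, M < ‖z‖ → z ∈ K)
    {ρ : ℝ} (hρ : 1 < ρ) {κ : ℂ → ℂ}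
    (hκ : DifferentiableOn ℂ κ (ann2 ρ)) (hi : InjOn κ (ann2 ρ))
    (hmem : ∀ z ∈ ann2 ρ, (κ z ∈ K ↔ ‖z‖ ≤ 1))
    (hop : ∀ r, 1 < r → r ≤ ρ → IsOpen (K ∪ κ '' ann r)) {b : ℂ} (hb : b ∉ κ '' ann2 ρ)
    (hbK : b ∉ K) :
    (∮ z in C(0, 1), deriv κ z / (κ z - b)) = -(2 * Real.pi * Complex.I) :=
  wind_unbdd_of (fun _ h1 h2 z => pompeiu h1 h2 z) hK hKM hρ hκ hi hmem hop hb hbK

end Pool.Agent.EN
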